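import Pool.Agent.H91.LF.Defs2
import Pool.Agent.H18.MR.EN
import Pool.Agent.H62.MR.ME

/-!
# Module [ENT]: entropy decrement with residue vectors in `ℤ ^ d`
-/

set_option autoImplicit false

open Finset Filter

namespace Pool.Agent.H32.LF

open Pool.Agent.H91.LF
open Pool.Agent.H18.MR (FAP law ent mi)

variable {d : ℕ} (μ : FAP (Fin d → ℤ))

/-- Translation invariance. -/
def TI (μ : FAP (Fin d → ℤ)) : Prop :=
  ∀ (v : Fin d → ℤ) (S : Set (Fin d → ℤ)), μ.P {ω | ω + v ∈ S} = μ.P S

variable {μ}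

theorem law_shift (hμ : TI μ) {α : Type*} (X : (Fin d → ℤ) → α) (v : Fin d → ℤ) :
    law μ (fun ω => X (ω + v)) = law μ X := by
  ext a
  exact hμ v (X ⁻¹' {a})

theorem ent_shift (hμ : TI μ) {α : Type*} [Fintype α] (X : (Fin d → ℤ) → α) (v : Fin d → ℤ) :
    ent μ (fun ω => X (ω + v)) = ent μ X := by
  unfold ent
  rw [law_shift hμ]

theorem resv_add (M : ℕ) (ω v : Fin d → ℤ) : resv M (ω + v) = resv M ω + resv M v := by
  funext i
  simp [resv]

/-- Residue vectors are equidistributed. -/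
theorem law_resv (hμ : TI μ) (M : ℕ) [NeZero M] (r : Fin d → ZMod M) :
    law μ (resv M) r = 1 / (M : ℝ) ^ d := by
  have key : ∀ r : Fin d → ZMod M, law μ (resv M) r = law μ (resv M) 0 := by
    intro r
    have h := congrFun (law_shift hμ (resv M) (fun i => ((r i).val : ℤ))) r
    rw [← h]
    unfold law
    congr 1
    ext ω
    simp only [Set.mem_preimage, Set.mem_singleton_iff]
    rw [resv_add]
    have e : resv M (fun i => ((r i).val : ℤ)) = r := by
      funext i
      simp [resv]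
    rw [e]
    constructor
    · intro h
      have := congrArg (fun t => t - r) h
      simpa using this
    · intro h
      rw [h, zero_add]
  have hs := Pool.Agent.H18.MR.law_sum μ (resv (d := d) M)
  rw [Finset.sum_congr rfl (fun a _ => key a)] at hs
  simp only [Finset.sum_const, Finset.card_univ, nsmul_eq_mul, Fintype.card_pi, ZMod.card,
    Finset.prod_const, Fintype.card_fin] at hs
  rw [key r]
  have h2 : ((M : ℝ)) ≠ 0 := by exact_mod_cast NeZero.ne M
  push_cast at hs
  field_simp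
  linarith

theorem ent_resv (hμ : TI μ) (M : ℕ) [NeZero M] :
    ent μ (resv M) = d * Real.log M := by
  unfold ent
  simp_rw [law_resv hμ M]
  simp only [Finset.sum_const, Finset.card_univ, nsmul_eq_mul, Fintype.card_pi, ZMod.card,
    Finset.prod_const, Fintype.card_fin, one_div, Real.log_inv, Real.log_pow]
  have h2 : ((M : ℝ)) ≠ 0 := by exact_mod_cast NeZero.ne M
  push_cast
  field_simp

/-- Superadditivity of the mutual information over coprime moduli. -/
theorem mi_mul (hμ : TI μ) {α : Type*} [Fintype α] [DecidableEq α] (X : (Fin d → ℤ) → α)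
    (M p : ℕ) [NeZero M] [NeZero p] [NeZero (M * p)] (hMp : Nat.Coprime M p) :
    mi μ X (resv (d := d) M) + mi μ X (resv (d := d) p) ≤ mi μ X (resv (d := d) (M * p)) := by
  have h1 := Pool.Agent.H18.MR.ent_submod μ (resv (d := d) M) (resv (d := d) p) X
  have h2 : ent μ (fun ω => (X ω, resv (d := d) (M * p) ω)) ≤
      ent μ (fun ω => (resv (d := d) M ω, resv (d := d) p ω, X ω)) := by
    have := Pool.Agent.H18.MR.ent_comp_le μ
      (fun ω => (resv (d := d) M ω, resv (d := d) p ω, X ω))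
      (fun t => (t.2.2, (fun i => (ZMod.chineseRemainder hMp).symm (t.1 i, t.2.1 i) :
        Fin d → ZMod (M * p))))
    have e : (fun ω => (X ω, resv (d := d) (M * p) ω)) =
        fun ω => (X ω, (fun i => (ZMod.chineseRemainder hMp).symm
          (resv (d := d) M ω i, resv (d := d) p ω i) : Fin d → ZMod (M * p))) := by
      funext ω
      congr 1
      funext i
      rw [eq_comm, RingEquiv.symm_apply_eq]
      simp only [resv]
      rw [map_intCast]
      rfl
    rw [e]
    exact this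
  have h3 : ent μ (fun ω => (resv (d := d) M ω, X ω)) ≤
      ent μ (fun ω => (X ω, resv (d := d) M ω)) :=
    Pool.Agent.H18.MR.ent_comp_le μ (fun ω => (X ω, resv (d := d) M ω)) (fun t => (t.2, t.1))
  have h4 : ent μ (fun ω => (resv (d := d) p ω, X ω)) ≤
      ent μ (fun ω => (X ω, resv (d := d) p ω)) :=
    Pool.Agent.H18.MR.ent_comp_le μ (fun ω => (X ω, resv (d := d) p ω)) (fun t => (t.2, t.1))
  have e1 : ent μ (resv (d := d) M) = d * Real.log M := ent_resv hμ M
  have e2 : ent μ (resv (d := d) p) = d * Real.log p := ent_resv hμ p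
  have e3 : ent μ (resv (d := d) (M * p)) = d * Real.log (M * p : ℕ) := ent_resv hμ (M * p)
  have hM0 : (M : ℝ) ≠ 0 := by exact_mod_cast NeZero.ne M
  have hp0 : (p : ℝ) ≠ 0 := by exact_mod_cast NeZero.ne p
  rw [Nat.cast_mul, Real.log_mul hM0 hp0] at e3
  unfold mi
  rw [e1, e2, e3]
  linarith

theorem miV_eq {α : Type} [Fintype α] (X : (Fin d → ℤ) → α) (M : ℕ) [NeZero M] :
    miV μ X M = mi μ X (resv (d := d) M) := by
  unfold miV
  rw [dif_neg (NeZero.ne M)]

theorem miV_nonneg {α : Type} [Fintype α] [DecidableEq α] (X : (Fin d → ℤ) → α) (M : ℕ) :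
    0 ≤ miV μ X M := by
  unfold miV
  split_ifs with h
  · exact le_refl _
  · have : NeZero M := ⟨h⟩
    exact Pool.Agent.H18.MR.mi_nonneg μ X _

theorem sum_miV_le (hμ : TI μ) {α : Type} [Fintype α] [DecidableEq α] (X : (Fin d → ℤ) → α)
    (S : Finset ℕ) (hS : ∀ p ∈ S, p.Prime) :
    ∑ p ∈ S, miV μ X p ≤ miV μ X (∏ p ∈ S, p) := by
  induction S using Finset.induction_on with
  | empty => simp [miV_nonneg]
  | insert p S hp ih =>
    rw [Finset.sum_insert hp, Finset.prod_insert hp]
    have ih' := ih (fun q hq => hS q (Finset.mem_insert_of_mem hq))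
    have hpp := hS p (Finset.mem_insert_self _ _)
    have : NeZero p := ⟨hpp.ne_zero⟩
    have hprod : ∏ q ∈ S, q ≠ 0 := Finset.prod_ne_zero_iff.2 fun q hq =>
      (hS q (Finset.mem_insert_of_mem hq)).ne_zero
    have : NeZero (∏ q ∈ S, q) := ⟨hprod⟩
    have : NeZero (p * ∏ q ∈ S, q) := ⟨mul_ne_zero hpp.ne_zero hprod⟩
    have h := mi_mul hμ X p (∏ q ∈ S, q)
      (Nat.Coprime.prod_right fun q hq =>
        (Nat.coprime_primes hpp (hS q (Finset.mem_insert_of_mem hq))).2 (by
          rintro rfl; exact hp hq))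
    rw [← miV_eq, ← miV_eq, ← miV_eq] at h
    linarith

/-- The subadditivity of block entropies given the residue vector mod `M`. -/
theorem ent_blkv_mul (hμ : TI μ) {A : Type} [Fintype A] [DecidableEq A]
    (x : (Fin d → ℤ) → A) (e : Fin d → ℤ) (n M : ℕ) [NeZero M] (k : ℕ) :
    ent μ (fun ω => (blkv x e (k * n) ω, resv (d := d) M ω)) + k * ent μ (resv (d := d) M) ≤
    k * ent μ (fun ω => (blkv x e n ω, resv (d := d) M ω)) + ent μ (resv (d := d) M) := by
  induction k with
  | zero =>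
    have h := Pool.Agent.H18.MR.ent_comp_le μ (resv (d := d) M)
      (fun r => ((fun j => absurd j.2 (by simp) : Fin (0 * n) → A), r))
    have e : (fun ω => (blkv x e (0 * n) ω, resv (d := d) M ω)) =
        fun ω => ((fun j => absurd j.2 (by simp) : Fin (0 * n) → A), resv (d := d) M ω) := by
      funext ω
      congr 1
      funext j
      exact absurd j.2 (by simp)
    rw [e]
    simp only [Nat.cast_zero, zero_mul, add_zero, zero_add]
    exact h
  | succ k ih =>
    set v : Fin d → ℤ := ((k * n : ℕ) : ℤ) • e with hv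
    set T : (Fin d → ℤ) → (Fin d → ℤ) := fun ω => ω + v with hT
    have h1 := Pool.Agent.H18.MR.ent_submod μ (blkv x e (k * n)) (fun ω => blkv x e n (T ω))
      (resv (d := d) M)
    have h2 : ent μ (fun ω => (blkv x e ((k + 1) * n) ω, resv (d := d) M ω)) ≤
        ent μ (fun ω => (blkv x e (k * n) ω, blkv x e n (T ω), resv (d := d) M ω)) := by
      have h := Pool.Agent.H18.MR.ent_comp_le μ
        (fun ω => (blkv x e (k * n) ω, blkv x e n (T ω), resv (d := d) M ω))
        (fun t => ((fun j => if h : (j : ℕ) < k * n then t.1 ⟨j, h⟩ else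
          t.2.1 ⟨j - k * n, by
            have := j.2
            have e : (k + 1) * n = k * n + n := by ring
            omega⟩ : Fin ((k + 1) * n) → A), t.2.2))
      have e' : (fun ω => (blkv x e ((k + 1) * n) ω, resv (d := d) M ω)) =
          fun ω => ((fun j => if h : (j : ℕ) < k * n then (blkv x e (k * n) ω) ⟨j, h⟩ else
          (blkv x e n (T ω)) ⟨j - k * n, by
            have := j.2
            have e : (k + 1) * n = k * n + n := by ring
            omega⟩ : Fin ((k + 1) * n) → A), resv (d := d) M ω) := by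
        funext ω
        congr 1
        funext j
        by_cases hj : (j : ℕ) < k * n
        · rw [dif_pos hj]; rfl
        · rw [dif_neg hj]
          simp only [blkv, hT, hv]
          congr 1
          have : ((j : ℕ) : ℤ) = ((k * n : ℕ) : ℤ) + (((j : ℕ) - k * n : ℕ) : ℤ) := by omega
          rw [this, add_smul, add_assoc]
      rw [e']
      exact h
    have h3 : ent μ (fun ω => (blkv x e n (T ω), resv (d := d) M ω)) ≤
        ent μ (fun ω => (blkv x e n ω, resv (d := d) M ω)) := by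
      rw [← ent_shift hμ (fun ω => (blkv x e n ω, resv (d := d) M ω)) v]
      have h := Pool.Agent.H18.MR.ent_comp_le μ
        (fun ω => (blkv x e n (T ω), resv (d := d) M (T ω)))
        (fun t => (t.1, t.2 - resv (d := d) M v))
      have e' : (fun ω => (blkv x e n (T ω), resv (d := d) M ω)) =
          fun ω => (blkv x e n (T ω), resv (d := d) M (T ω) - resv (d := d) M v) := by
        funext ω
        congr 1
        simp only [hT]
        rw [resv_add]
        abel
      rw [e']
      exact h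
    push_cast
    linarith

/-- The entropy decrement inequality. -/
theorem ent_blkv_decr (hμ : TI μ) {A : Type} [Fintype A] [DecidableEq A]
    (x : (Fin d → ℤ) → A) (e : Fin d → ℤ) (n M : ℕ) [NeZero M] (k : ℕ) :
    ent μ (blkv x e (k * n)) ≤
      k * (ent μ (blkv x e n) - miV μ (blkv x e n) M) + d * Real.log M := by
  have h1 := ent_blkv_mul hμ x e n M k
  have h2 : ent μ (blkv x e (k * n)) ≤
      ent μ (fun ω => (blkv x e (k * n) ω, resv (d := d) M ω)) :=
    Pool.Agent.H18.MR.ent_comp_le μ (fun ω => (blkv x e (k * n) ω, resv (d := d) M ω)) Prod.fst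
  have h3 := ent_resv hμ M
  rw [miV_eq]
  unfold mi
  rw [h3] at h1 ⊢
  nlinarith

theorem pset_eq (Q m : ℕ) : Pool.Agent.H24.T2.Pset Q m = Pool.Agent.H18.MR.Pset Q m := rfl

theorem nn_succ (R m s : ℕ) : R * 2 ^ (m + s) = 2 ^ s * (R * 2 ^ m) := by
  rw [pow_add]; ring

/-- **[ENT]** Entropy decrement with residue vectors. -/
theorem ent_main : StatementENT := by
  classical
  obtain ⟨C, c, hC, hc, hME0⟩ := Pool.Agent.H62.MR.me
  have hC0 : (0:ℝ) < C := by exact_mod_cast (by omega : 0 < C)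
  refine ⟨c / (2 * C), by positivity, ?_⟩
  intro d μ hμ A _ x e Q R θ m0 hQ hR hθ
  have hTI : TI μ := hμ
  have hME : ∃ x0 : ℕ, ∀ x : ℕ, x0 ≤ x → c / (Nat.totient Q : ℝ) ≤
      ∑ p ∈ (Ioc x (x ^ C)).filter (fun p => p.Prime ∧ p ≡ 1 [MOD Q]), (1 / (p : ℝ)) := by
    obtain ⟨x0, hx0⟩ := hME0 Q hQ
    refine ⟨⌈x0⌉₊, fun x hx => ?_⟩
    have h := hx0 x ((Nat.le_ceil _).trans (by exact_mod_cast hx))
    rw [Nat.floor_natCast] at h
    have e2 : ⌊(x : ℝ) ^ C⌋₊ = x ^ C := by
      rw [← Nat.cast_pow, Nat.floor_natCast]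
    rw [e2] at h
    exact h
  set nn : ℕ → ℕ := fun m => R * 2 ^ m with hnn
  set c1 : ℝ := c / (2 * C) with hc1
  have hQ0 : (0:ℝ) < Q := by exact_mod_cast hQ
  have hR0 : (0:ℝ) < R := by exact_mod_cast hR
  have hφ0 : (0:ℝ) < Nat.totient Q := by exact_mod_cast Nat.totient_pos.2 hQ
  have hc10 : 0 < c1 := by positivity
  have hnn0 : ∀ m, (0:ℝ) < nn m := by
    intro m
    have : 0 < nn m := by positivity
    exact_mod_cast this
  have hnns : ∀ m s, nn (m + s) = 2 ^ s * nn m := fun m s => nn_succ R m s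
  by_contra hcon
  have hbad : ∀ m, m0 ≤ m → c1 * 2 ^ m / (Nat.totient Q * m) ≤
      ((Pool.Agent.H18.MR.Pset Q m).card : ℝ) →
      θ * (Pool.Agent.H18.MR.Pset Q m).card <
        miV μ (blkv x e (nn m)) (∏ p ∈ Pool.Agent.H18.MR.Pset Q m, p) := by
    intro m hm hd
    by_contra hlt
    apply hcon
    refine ⟨m, hm, hd, ?_⟩
    exact (sum_miV_le hTI (blkv x e (nn m)) (Pool.Agent.H18.MR.Pset Q m)
      (fun p hp => (Pool.Agent.H18.MR.mem_Pset.1 hp).2.1)).trans (not_lt.1 hlt)
  -- sequences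
  set h : ℕ → ℝ := fun m => ent μ (blkv x e (nn m)) / nn m with hh
  set I : ℕ → ℝ := fun m =>
    miV μ (blkv x e (nn m)) (∏ p ∈ Pool.Agent.H18.MR.Pset Q m, p) / nn m with hI
  have hpos : ∀ m, 0 ≤ h m := fun m =>
    div_nonneg (Pool.Agent.H18.MR.ent_nonneg μ _) (hnn0 m).le
  have hIpos : ∀ m, 0 ≤ I m := fun m => div_nonneg (miV_nonneg _ _) (hnn0 m).le
  have hlog4 : 0 ≤ Real.log 4 := Real.log_nonneg (by norm_num)
  have hd0 : (0:ℝ) ≤ d := Nat.cast_nonneg _
  have hdec : ∀ m s, h (m + s) ≤ h m - I m + (2 * d * Real.log 4) / 2 ^ s := by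
    intro m s
    have : NeZero (∏ p ∈ Pool.Agent.H18.MR.Pset Q m, p) :=
      ⟨Pool.Agent.H18.MR.prod_Pset_ne_zero Q m⟩
    have h1 := ent_blkv_decr hTI x e (nn m) (∏ p ∈ Pool.Agent.H18.MR.Pset Q m, p) (2 ^ s)
    have h2 := Pool.Agent.H18.MR.log_prod_Pset_le Q m
    have e1 : ent μ (blkv x e (nn (m + s))) = ent μ (blkv x e (2 ^ s * nn m)) := by rw [hnns]
    have h3 : (nn (m + s) : ℝ) = 2 ^ s * nn m := by rw [hnns]; push_cast; ring
    simp only [hh, hI]
    rw [e1, h3, div_le_iff₀ (by have := hnn0 m; positivity)]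
    have h4 : (2:ℝ) ^ (m + 1) ≤ 2 * nn m := by
      have h5 : (2:ℝ) ^ m ≤ nn m := by
        have : 2 ^ m ≤ nn m := by
          simp only [hnn]
          exact Nat.le_mul_of_pos_left _ hR
        exact_mod_cast this
      rw [pow_succ]
      linarith
    have h5 : (d : ℝ) * ((2:ℝ) ^ (m + 1) * Real.log 4) ≤ d * (2 * nn m * Real.log 4) := by
      gcongr
    have h6 : (ent μ (blkv x e (nn m)) / (nn m : ℝ) -
        miV μ (blkv x e (nn m)) (∏ p ∈ Pool.Agent.H18.MR.Pset Q m, p) / (nn m : ℝ) +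
          (2 * d * Real.log 4) / 2 ^ s) *
        (2 ^ s * nn m) = 2 ^ s * (ent μ (blkv x e (nn m)) -
        miV μ (blkv x e (nn m)) (∏ p ∈ Pool.Agent.H18.MR.Pset Q m, p)) +
          d * (2 * nn m * Real.log 4) := by
      have := (hnn0 m).ne'
      field_simp
      try ring
    rw [h6]
    have h7 : (d : ℝ) * Real.log ((∏ p ∈ Pool.Agent.H18.MR.Pset Q m, p : ℕ) : ℝ) ≤
        d * ((2:ℝ) ^ (m + 1) * Real.log 4) := by
      gcongr
    push_cast at h1 h7
    linarith
  have hanti : Antitone h := by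
    apply antitone_nat_of_succ_le
    intro m
    have h1 := ent_blkv_decr hTI x e (nn m) 1 (2 ^ 1)
    have e1 : ent μ (blkv x e (nn (m + 1))) = ent μ (blkv x e (2 ^ 1 * nn m)) := by rw [hnns]
    have h3 : (nn (m + 1) : ℝ) = 2 ^ 1 * nn m := by rw [hnns]; push_cast; ring
    have h4 := miV_nonneg (μ := μ) (blkv x e (nn m)) 1
    simp only [hh]
    rw [e1, h3, div_le_div_iff₀ (by have := hnn0 m; positivity) (hnn0 m)]
    simp only [Nat.cast_one, Real.log_one, Nat.cast_ofNat, pow_one, mul_zero, add_zero] at h1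
    have h5 : ent μ (blkv x e (2 ^ 1 * nn m)) ≤ 2 * ent μ (blkv x e (nn m)) := by
      linarith
    have := hnn0 m
    nlinarith
  obtain ⟨x0, hx0⟩ := hME
  set w : ℝ := θ / R with hw
  have hw0 : 0 < w := by positivity
  apply Pool.Agent.H18.MR.decr_contra h I hpos hanti (2 * d * Real.log 4) (by positivity) hdec C hC
    (w * (c / (2 * Nat.totient Q))) (by positivity) (max (max m0 x0) 1)
  intro j hj
  have hj1 : m0 ≤ j := (le_max_left _ _).trans ((le_max_left _ _).trans hj)
  have hj2 : x0 ≤ j := (le_max_right _ _).trans ((le_max_left _ _).trans hj)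
  have hjC : j ≤ C ^ j := (Nat.lt_pow_self (by omega)).le
  have hCj : C ^ j ≤ C ^ (j + 1) := Nat.pow_le_pow_right (by omega) (by omega)
  have hI_lower : ∀ m ∈ Ico (C ^ j) (C ^ (j + 1)),
      w * (((Pool.Agent.H18.MR.Pset Q m).card : ℝ) / 2 ^ m -
        c1 / Nat.totient Q * (1 / C ^ j)) ≤ I m := by
    intro m hm
    have hm1 := (Finset.mem_Ico.1 hm).1
    have hm0 : m0 ≤ m := hj1.trans (hjC.trans hm1)
    have hCj0 : 0 < C ^ j := by positivity
    have hmpos : 0 < m := by omega
    have hm' : (0:ℝ) < m := by exact_mod_cast hmpos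
    by_cases hd : c1 * 2 ^ m / (Nat.totient Q * m) ≤
        ((Pool.Agent.H18.MR.Pset Q m).card : ℝ)
    · have h1 := (hbad m hm0 hd).le
      have h2 : w * (((Pool.Agent.H18.MR.Pset Q m).card : ℝ) / 2 ^ m) ≤ I m := by
        simp only [hI]
        rw [le_div_iff₀ (hnn0 m)]
        have e : w * (((Pool.Agent.H18.MR.Pset Q m).card : ℝ) / 2 ^ m) * nn m =
            θ * (Pool.Agent.H18.MR.Pset Q m).card := by
          simp only [hw, hnn]
          push_cast
          field_simp
        rw [e]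
        exact h1
      have h3 : 0 ≤ w * (c1 / Nat.totient Q * (1 / C ^ j)) := by positivity
      linarith
    · have h1 := (not_le.1 hd).le
      have h2 : ((Pool.Agent.H18.MR.Pset Q m).card : ℝ) / 2 ^ m ≤
          c1 / Nat.totient Q * (1 / C ^ j) := by
        rw [div_le_iff₀ (by positivity)]
        calc ((Pool.Agent.H18.MR.Pset Q m).card : ℝ) ≤ c1 * 2 ^ m / (Nat.totient Q * m) := h1
          _ ≤ c1 * 2 ^ m / (Nat.totient Q * (C ^ j : ℕ)) := by
              have hCj0' : (0:ℝ) < (C ^ j : ℕ) := by exact_mod_cast hCj0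
              have : ((C ^ j : ℕ) : ℝ) ≤ m := by exact_mod_cast hm1
              gcongr
          _ = c1 / Nat.totient Q * (1 / C ^ j) * 2 ^ m := by
              push_cast
              field_simp
      have h3 : w * (((Pool.Agent.H18.MR.Pset Q m).card : ℝ) / 2 ^ m -
          c1 / Nat.totient Q * (1 / C ^ j)) ≤ 0 := by
        apply mul_nonpos_of_nonneg_of_nonpos hw0.le
        linarith
      exact h3.trans (hIpos m)
  have hsum := Finset.sum_le_sum hI_lower
  rw [← Finset.mul_sum, Finset.sum_sub_distrib] at hsum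
  have hpr := Pool.Agent.H18.MR.sum_inv_primes_le Q (C ^ j) (C ^ (j + 1)) hCj
  have hx := hx0 (2 ^ (C ^ j)) (hj2.trans (hjC.trans (Nat.lt_two_pow_self).le))
  rw [← pow_mul, ← pow_succ] at hx
  have hcount : ∑ _m ∈ Ico (C ^ j) (C ^ (j + 1)), c1 / Nat.totient Q * (1 / (C:ℝ) ^ j) ≤
      c / (2 * Nat.totient Q) := by
    rw [Finset.sum_const, Nat.card_Ico, nsmul_eq_mul]
    have h1 : ((C ^ (j + 1) - C ^ j : ℕ) : ℝ) ≤ (C:ℝ) ^ (j + 1) := by
      have : C ^ (j + 1) - C ^ j ≤ C ^ (j + 1) := Nat.sub_le _ _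
      exact_mod_cast this
    calc ((C ^ (j + 1) - C ^ j : ℕ) : ℝ) * (c1 / Nat.totient Q * (1 / (C:ℝ) ^ j))
        ≤ (C:ℝ) ^ (j + 1) * (c1 / Nat.totient Q * (1 / (C:ℝ) ^ j)) := by gcongr
      _ = c / (2 * Nat.totient Q) := by
          rw [hc1, pow_succ]
          field_simp
  have hfin : w * (c / (2 * Nat.totient Q)) ≤
      w * (∑ m ∈ Ico (C ^ j) (C ^ (j + 1)), ((Pool.Agent.H18.MR.Pset Q m).card : ℝ) / 2 ^ m -
      ∑ _m ∈ Ico (C ^ j) (C ^ (j + 1)), c1 / Nat.totient Q * (1 / (C:ℝ) ^ j)) := by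
    gcongr
    have : c / (Nat.totient Q : ℝ) = c / (2 * Nat.totient Q) + c / (2 * Nat.totient Q) := by
      field_simp
      ring
    linarith
  exact hfin.trans hsum

end Pool.Agent.H32.LF
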