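import Pool.Agent.H91.LF.Defs3

/-!
# Module [MUFP]: passage from the Liouville function in residue classes to the Möbius function
-/

set_option autoImplicit false

open Finset Filter

namespace Pool.Agent.H32.LF

open Pool.Agent.H91.LF

/-- The periodic splitting. -/
theorem split_periodic (N W : ℕ) (hW : 0 < W) (χ f : ℕ → ℝ) (hχ : ∀ n, χ n = χ (n % W))
    (h1 : ∀ n, |χ n| ≤ 1) :
    |∑ n ∈ Icc 1 N, χ n * f n| ≤
      ∑ ν ∈ range W, |∑ n ∈ (Icc 1 N).filter (fun n => n % W = ν), f n| := by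
  have hmaps : ∀ n ∈ Icc 1 N, n % W ∈ range W := fun n _ =>
    Finset.mem_range.2 (Nat.mod_lt _ hW)
  rw [← Finset.sum_fiberwise_of_maps_to hmaps (fun n => χ n * f n)]
  refine (Finset.abs_sum_le_sum_abs _ _).trans ?_
  apply Finset.sum_le_sum
  intro ν _
  have e : ∑ n ∈ (Icc 1 N).filter (fun n => n % W = ν), χ n * f n =
      χ ν * ∑ n ∈ (Icc 1 N).filter (fun n => n % W = ν), f n := by
    rw [Finset.mul_sum]
    apply Finset.sum_congr rfl
    intro n hn
    rw [hχ n, (Finset.mem_filter.1 hn).2]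
  rw [e, abs_mul]
  calc |χ ν| * _ ≤ 1 * |∑ n ∈ (Icc 1 N).filter (fun n => n % W = ν), f n| := by
        gcongr
        exact h1 ν
    _ = _ := one_mul _

/-- The modulus. -/
def WW (q w : ℕ) : ℕ := q * (w.factorial) ^ 2

theorem WW_pos {q : ℕ} (hq : 0 < q) (w : ℕ) : 0 < WW q w :=
  Nat.mul_pos hq (pow_pos (Nat.factorial_pos w) 2)

theorem sqw_congr {q w : ℕ} {x y : ℤ} (h : ((WW q w : ℕ) : ℤ) ∣ x - y) : sqw w x = sqw w y := by
  unfold sqw
  have key : ∀ p ∈ (Finset.Icc 1 w).filter Nat.Prime, ((p : ℤ) ^ 2 ∣ x ↔ (p : ℤ) ^ 2 ∣ y) := by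
    intro p hp
    have hp' := Finset.mem_filter.1 hp
    have hp1 := Finset.mem_Icc.1 hp'.1
    have hd : p ∣ w.factorial := Nat.dvd_factorial (by omega) hp1.2
    have hd2 : p ^ 2 ∣ WW q w := (pow_dvd_pow_of_dvd hd 2).trans (Dvd.intro_left q rfl)
    have hd3 : (p : ℤ) ^ 2 ∣ x - y := by
      have : ((p ^ 2 : ℕ) : ℤ) ∣ ((WW q w : ℕ) : ℤ) := Int.natCast_dvd_natCast.2 hd2
      push_cast at this
      exact this.trans h
    constructor
    · intro hx
      have := dvd_sub hx hd3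
      simpa using this
    · intro hy
      have := dvd_add hd3 hy
      simpa using this
  have : (∀ p ∈ (Finset.Icc 1 w).filter Nat.Prime, ¬ ((p : ℤ) ^ 2 ∣ x)) ↔
      (∀ p ∈ (Finset.Icc 1 w).filter Nat.Prime, ¬ ((p : ℤ) ^ 2 ∣ y)) := by
    constructor
    · intro h' p hp
      rw [← key p hp]
      exact h' p hp
    · intro h' p hp
      rw [key p hp]
      exact h' p hp
  simp only [this]

theorem sqw_nonneg (w : ℕ) (x : ℤ) : 0 ≤ sqw w x := by
  unfold sqw
  split_ifs <;> norm_num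

theorem sqw_le (w : ℕ) (x : ℤ) : sqw w x ≤ 1 := by
  unfold sqw
  split_ifs <;> norm_num

theorem frm_congr {m : ℕ} (W : ℤ) (a : ℤ) (b : Fin m → ℤ) (n n' : ℤ) (u : Fin m → ℤ)
    (h : W ∣ n - n') : W ∣ frm a b n u - frm a b n' u := by
  unfold frm
  have : n + a + ∑ l, b l * u l - (n' + a + ∑ l, b l * u l) = n - n' := by ring
  rw [this]
  exact h

/-- The inequality for one shift vector and one `N`. -/
theorem one_t (m r : ℕ) (a : Fin r → ℤ) (b : Fin r → Fin m → ℤ) (ε : Fin r → ℕ) (q n₀ w N : ℕ)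
    (hq : 0 < q) (u : Fin m → ℤ) :
    |∑ n ∈ (Icc 1 N).filter (fun n => n ≡ n₀ [MOD q]),
      (∏ i ∈ univ.filter (fun i => Odd (ε i)), lz (frm (a i) (b i) n u)) *
        ∏ i, sqw w (frm (a i) (b i) n u)| ≤
    ∑ ν ∈ range (WW q w), |∑ n ∈ (Icc 1 N).filter
        (fun n : ℕ => (n : ℤ) ≡ (ν : ℤ) [ZMOD (WW q w : ℕ)]),
      ∏ i ∈ univ.filter (fun i => Odd (ε i)), lz (frm (a i) (b i) n u)| := by
  have hW := WW_pos hq w
  set χ : ℕ → ℝ := fun n => (if n ≡ n₀ [MOD q] then 1 else 0) * ∏ i, sqw w (frm (a i) (b i) n u)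
    with hχ
  set f : ℕ → ℝ := fun n => ∏ i ∈ univ.filter (fun i => Odd (ε i)), lz (frm (a i) (b i) n u)
    with hf
  have e1 : ∑ n ∈ (Icc 1 N).filter (fun n => n ≡ n₀ [MOD q]),
      (∏ i ∈ univ.filter (fun i => Odd (ε i)), lz (frm (a i) (b i) n u)) *
        ∏ i, sqw w (frm (a i) (b i) n u) = ∑ n ∈ Icc 1 N, χ n * f n := by
    rw [Finset.sum_filter]
    apply Finset.sum_congr rfl
    intro n _
    simp only [hχ, hf]
    split_ifs
    · ring
    · ring
  rw [e1]
  have h := split_periodic N (WW q w) hW χ f ?_ ?_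
  · refine h.trans (le_of_eq ?_)
    apply Finset.sum_congr rfl
    intro ν hν
    have hν' := Finset.mem_range.1 hν
    congr 1
    apply Finset.sum_congr ?_ (fun _ _ => rfl)
    ext n
    simp only [Finset.mem_filter, and_congr_right_iff]
    intro _
    rw [Int.natCast_modEq_iff]
    unfold Nat.ModEq
    rw [Nat.mod_eq_of_lt hν']
  · intro n
    have hd : ((WW q w : ℕ) : ℤ) ∣ (n : ℤ) - ((n % WW q w : ℕ) : ℤ) := by
      rw [Int.natCast_mod]
      exact Int.dvd_self_sub_emod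
    have hq' : q ∣ WW q w := Dvd.intro _ rfl
    have hm : (n ≡ n₀ [MOD q]) ↔ (n % WW q w ≡ n₀ [MOD q]) := by
      unfold Nat.ModEq
      rw [Nat.mod_mod_of_dvd _ hq']
    simp only [hχ, hm]
    congr 1
    apply Finset.prod_congr rfl
    intro i _
    exact sqw_congr (frm_congr _ _ _ _ _ _ hd)
  · intro n
    simp only [hχ]
    rw [abs_mul]
    have h1 : |(if n ≡ n₀ [MOD q] then (1:ℝ) else 0)| ≤ 1 := by
      split_ifs <;> norm_num
    have h2 : |∏ i, sqw w (frm (a i) (b i) (n : ℤ) u)| ≤ 1 := by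
      rw [Finset.abs_prod]
      apply Finset.prod_le_one
      · intro i _; exact abs_nonneg _
      · intro i _
        rw [abs_of_nonneg (sqw_nonneg _ _)]
        exact sqw_le _ _
    calc _ ≤ (1:ℝ) * 1 := mul_le_mul h1 h2 (abs_nonneg _) (by norm_num)
      _ = 1 := one_mul 1

/-- Weights of the box. -/
theorem sum_wt (m T : ℕ) (hT : 3 ≤ T) :
    ∑ t ∈ H91.LF.box m T, wt t ≤ (2 * Real.log T) ^ m := by
  have e : ∑ t ∈ H91.LF.box m T, wt t = (∑ s ∈ Icc 1 T, (1 : ℝ) / s) ^ m := by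
    unfold H91.LF.box wt
    have h := Finset.sum_prod_piFinset (Icc 1 T) (fun (_ : Fin m) (s : ℕ) => (1:ℝ) / s)
    rw [h]
    simp
  rw [e]
  have h1 : ∑ s ∈ Icc 1 T, (1 : ℝ) / s ≤ 1 + Real.log T := by
    have h := harmonic_le_one_add_log T
    have e2 : ((harmonic T : ℚ) : ℝ) = ∑ s ∈ Icc 1 T, (1 : ℝ) / s := by
      rw [harmonic_eq_sum_Icc]
      push_cast
      simp
    rw [← e2]
    exact h
  have h2 : 1 ≤ Real.log T := by
    rw [← Real.log_exp 1]
    apply Real.log_le_log (Real.exp_pos _)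
    have := Real.exp_one_lt_d9
    have h3 : (3:ℝ) ≤ T := by exact_mod_cast hT
    linarith
  have h0 : 0 ≤ ∑ s ∈ Icc 1 T, (1 : ℝ) / s := Finset.sum_nonneg fun _ _ => by positivity
  apply pow_le_pow_left₀ h0
  linarith

open Classical in
theorem mem_coe_do (s : Finset ℕ) (x : ℤ) :
    x ∈ ((do let a ← s; pure (a : ℤ)) : Finset ℤ) ↔ ∃ a ∈ s, (a : ℤ) = x := by
  have h := @Finset.mem_sup ℤ ℕ (fun a b => propDecidable (a = b)) s (fun a => {(a : ℤ)}) x
  refine Iff.trans h ?_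
  simp [eq_comm]

open Classical in
/-- Sums over the image of a finset in the integers. -/
theorem coe_filter_sum (s : Finset ℕ) (p : ℤ → Prop) [DecidablePred p] (f : ℤ → ℝ) :
    ∑ n ∈ ((do let a ← s; pure (a : ℤ)) : Finset ℤ).filter p, f n =
      ∑ n ∈ s.filter (fun n : ℕ => p (n : ℤ)), f n := by
  symm
  apply Finset.sum_nbij (fun n : ℕ => (n : ℤ))
  · intro n hn
    rw [Finset.mem_filter] at hn ⊢
    exact ⟨(mem_coe_do _ _).2 ⟨n, hn.1, rfl⟩, hn.2⟩
  · intro a _ b _ h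
    have h' : (a : ℤ) = b := h
    exact_mod_cast h'
  · intro x hx
    rw [Finset.mem_coe, Finset.mem_filter] at hx
    obtain ⟨a, ha, hax⟩ := (mem_coe_do _ _).1 hx.1
    refine ⟨a, ?_, hax⟩
    rw [Finset.mem_coe, Finset.mem_filter]
    exact ⟨ha, by rw [hax]; exact hx.2⟩
  · intro _ _
    rfl

/-- Partition of the box into residue classes. -/
theorem box_partition (m T W : ℕ) (hW : 0 < W) (F : (Fin m → ℕ) → ℝ) :
    ∑ t ∈ H91.LF.box m T, F t = ∑ τ ∈ Fintype.piFinset (fun _ : Fin m => range W),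
      ∑ t ∈ (H91.LF.box m T).filter (fun t => ∀ l, (t l : ℤ) ≡ ((τ l : ℕ) : ℤ) [ZMOD (W : ℕ)]),
        F t := by
  have hmaps : ∀ t ∈ H91.LF.box m T, (fun l => t l % W) ∈
      Fintype.piFinset (fun _ : Fin m => range W) := by
    intro t _
    rw [Fintype.mem_piFinset]
    intro l
    exact Finset.mem_range.2 (Nat.mod_lt _ hW)
  rw [← Finset.sum_fiberwise_of_maps_to hmaps F]
  apply Finset.sum_congr rfl
  intro τ hτ
  rw [Fintype.mem_piFinset] at hτ
  apply Finset.sum_congr ?_ (fun _ _ => rfl)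
  ext t
  simp only [Finset.mem_filter, and_congr_right_iff]
  intro _
  constructor
  · intro h l
    rw [Int.natCast_modEq_iff]
    unfold Nat.ModEq
    rw [Nat.mod_eq_of_lt (Finset.mem_range.1 (hτ l)), ← h]
  · intro h
    funext l
    have := h l
    rw [Int.natCast_modEq_iff] at this
    unfold Nat.ModEq at this
    rw [Nat.mod_eq_of_lt (Finset.mem_range.1 (hτ l))] at this
    exact this

open Classical in
/-- The double logarithmic sum for the Liouville function in residue classes. -/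
noncomputable def AL {m k : ℕ} (a : Fin k → ℤ) (b : Fin k → Fin m → ℤ) (W : ℕ) (n₀ : ℤ)
    (τ : Fin m → ℤ) (T x y : ℕ) : ℝ :=
  ∑ t ∈ (H91.LF.box m T).filter (fun t => ∀ l, (t l : ℤ) ≡ τ l [ZMOD W]),
    wt t * ∑ N ∈ Finset.Icc x y, (1 / (N : ℝ)) *
      |(∑ n ∈ (Finset.Icc 1 N).filter (fun n => (n : ℤ) ≡ n₀ [ZMOD W]),
        ∏ i, lz (frm (a i) (b i) n (fun l => (t l : ℤ)))) / N|

open Classical in
/-- The double logarithmic sum for the Möbius function. -/
noncomputable def AM {m r : ℕ} (a : Fin r → ℤ) (b : Fin r → Fin m → ℤ) (ε : Fin r → ℕ)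
    (q n₀ T x y : ℕ) : ℝ :=
  ∑ t ∈ H91.LF.box m T, wt t * ∑ N ∈ Finset.Icc x y, (1 / (N : ℝ)) *
    |(∑ n ∈ (Finset.Icc 1 N).filter (fun n => n ≡ n₀ [MOD q]),
      ∏ i, ((ArithmeticFunction.moebius
        (((n : ℤ) + (a i + ∑ l, b i l * t l)).toNat) : ℤ) : ℝ) ^ ε i) / N|

theorem wt_nonneg {m : ℕ} (t : Fin m → ℕ) : 0 ≤ wt t := by
  unfold wt
  exact Finset.prod_nonneg fun _ _ => by positivity

/-- The main inequality. -/
theorem am_le (m r : ℕ) (a : Fin r → ℤ) (b : Fin r → Fin m → ℤ) (ε : Fin r → ℕ) (q n₀ w : ℕ)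
    (hq : 0 < q) (T x y : ℕ) (η : ℝ) (hη : 0 ≤ η) (hT : 3 ≤ T) (hxy : 0 ≤ Real.log (y / x))
    (k : ℕ) (e : {i // Odd (ε i)} ≃ Fin k)
    (h : ∀ t ∈ H91.LF.box m T,
      ∑ N ∈ Finset.Icc x y, (1 / (N : ℝ)) *
        (|(∑ n ∈ (Finset.Icc 1 N).filter (fun n => n ≡ n₀ [MOD q]),
            ((∏ i, ((ArithmeticFunction.moebius
              (((n : ℤ) + (a i + ∑ l, b i l * t l)).toNat) : ℤ) : ℝ) ^ ε i) -
            (∏ i ∈ Finset.univ.filter (fun i => Odd (ε i)),
                lz (frm (a i) (b i) n (fun l => (t l : ℤ)))) *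
              ∏ i, sqw w (frm (a i) (b i) n (fun l => (t l : ℤ))))) / N|) ≤
      η * Real.log (y / x)) :
    AM a b ε q n₀ T x y ≤ η * (2 * Real.log T) ^ m * Real.log (y / x) +
      ∑ ν ∈ range (WW q w), ∑ τ ∈ Fintype.piFinset (fun _ : Fin m => range (WW q w)),
        AL (fun i => a (e.symm i).1) (fun i => b (e.symm i).1) (WW q w) (ν : ℤ)
          (fun l => ((τ l : ℕ) : ℤ)) T x y := by
  classical
  have hW := WW_pos hq w
  set W := WW q w with hWdef
  -- the sum over `N` for fixed `t`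
  set S : (Fin m → ℕ) → ℕ → ℝ := fun t N => ∑ n ∈ (Finset.Icc 1 N).filter (fun n => n ≡ n₀ [MOD q]),
      ∏ i, ((ArithmeticFunction.moebius
        (((n : ℤ) + (a i + ∑ l, b i l * t l)).toNat) : ℤ) : ℝ) ^ ε i with hS
  set D : (Fin m → ℕ) → ℕ → ℝ := fun t N => ∑ n ∈ (Finset.Icc 1 N).filter (fun n => n ≡ n₀ [MOD q]),
            ((∏ i, ((ArithmeticFunction.moebius
              (((n : ℤ) + (a i + ∑ l, b i l * t l)).toNat) : ℤ) : ℝ) ^ ε i) -
            (∏ i ∈ Finset.univ.filter (fun i => Odd (ε i)),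
                lz (frm (a i) (b i) n (fun l => (t l : ℤ)))) *
              ∏ i, sqw w (frm (a i) (b i) n (fun l => (t l : ℤ)))) with hD
  set L : ℕ → (Fin m → ℕ) → ℕ → ℝ := fun ν t N =>
      ∑ n ∈ (Finset.Icc 1 N).filter (fun n : ℕ => (n : ℤ) ≡ (ν : ℤ) [ZMOD (W : ℕ)]),
        ∏ i, lz (frm (a (e.symm i).1) (b (e.symm i).1) n (fun l => (t l : ℤ))) with hL
  have key : ∀ t N, |S t N / N| ≤ |D t N / N| + ∑ ν ∈ range W, |L ν t N / N| := by
    intro t N
    have h1 := one_t m r a b ε q n₀ w N hq (fun l => (t l : ℤ))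
    have h2 : S t N = D t N + ∑ n ∈ (Icc 1 N).filter (fun n => n ≡ n₀ [MOD q]),
      (∏ i ∈ univ.filter (fun i => Odd (ε i)), lz (frm (a i) (b i) n (fun l => (t l : ℤ)))) *
        ∏ i, sqw w (frm (a i) (b i) n (fun l => (t l : ℤ))) := by
      simp only [hS, hD]
      rw [← Finset.sum_add_distrib]
      apply Finset.sum_congr rfl
      intro n _
      ring
    have h3 : ∀ n : ℤ, ∏ i ∈ univ.filter (fun i => Odd (ε i)),
        lz (frm (a i) (b i) n (fun l => (t l : ℤ))) =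
        ∏ i, lz (frm (a (e.symm i).1) (b (e.symm i).1) n (fun l => (t l : ℤ))) := by
      intro n
      rw [← Finset.prod_subtype_eq_prod_filter (s := (univ : Finset (Fin r)))
        (p := fun i => Odd (ε i)), Finset.subtype_univ]
      exact (e.symm.prod_comp (fun i : {i // Odd (ε i)} =>
        lz (frm (a i.1) (b i.1) n (fun l => (t l : ℤ))))).symm
    have h4 : |∑ n ∈ (Icc 1 N).filter (fun n => n ≡ n₀ [MOD q]),
      (∏ i ∈ univ.filter (fun i => Odd (ε i)), lz (frm (a i) (b i) n (fun l => (t l : ℤ)))) *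
        ∏ i, sqw w (frm (a i) (b i) n (fun l => (t l : ℤ)))| ≤ ∑ ν ∈ range W, |L ν t N| := by
      refine h1.trans (le_of_eq ?_)
      apply Finset.sum_congr rfl
      intro ν _
      simp only [hL]
      congr 1
      apply Finset.sum_congr rfl
      intro n _
      exact h3 n
    simp only [abs_div]
    rw [← Finset.sum_div, ← add_div]
    gcongr
    rw [h2]
    exact (abs_add_le _ _).trans (by gcongr)
  have hmain : AM a b ε q n₀ T x y ≤
      ∑ t ∈ H91.LF.box m T, wt t * ∑ N ∈ Finset.Icc x y, (1 / (N : ℝ)) * |D t N / N| +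
      ∑ ν ∈ range W, ∑ t ∈ H91.LF.box m T, wt t * ∑ N ∈ Finset.Icc x y, (1 / (N : ℝ)) *
        |L ν t N / N| := by
    unfold AM
    rw [Finset.sum_comm (s := range W), ← Finset.sum_add_distrib]
    apply Finset.sum_le_sum
    intro t _
    have e1 : ∑ ν ∈ range W, wt t * ∑ N ∈ Finset.Icc x y, (1 / (N : ℝ)) * |L ν t N / N| =
        wt t * ∑ N ∈ Finset.Icc x y, (1 / (N : ℝ)) * ∑ ν ∈ range W, |L ν t N / N| := by
      rw [← Finset.mul_sum, Finset.sum_comm]
      congr 1
      apply Finset.sum_congr rfl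
      intro N _
      rw [Finset.mul_sum]
    rw [e1, ← mul_add, ← Finset.sum_add_distrib]
    apply mul_le_mul_of_nonneg_left _ (wt_nonneg t)
    apply Finset.sum_le_sum
    intro N _
    rw [← mul_add]
    apply mul_le_mul_of_nonneg_left _ (by positivity)
    exact key t N
  refine hmain.trans (add_le_add ?_ ?_)
  · calc ∑ t ∈ H91.LF.box m T, wt t * ∑ N ∈ Finset.Icc x y, (1 / (N : ℝ)) * |D t N / N|
        ≤ ∑ t ∈ H91.LF.box m T, wt t * (η * Real.log (y / x)) := by
          apply Finset.sum_le_sum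
          intro t ht
          exact mul_le_mul_of_nonneg_left (h t ht) (wt_nonneg t)
      _ = (∑ t ∈ H91.LF.box m T, wt t) * (η * Real.log (y / x)) := by rw [Finset.sum_mul]
      _ ≤ (2 * Real.log T) ^ m * (η * Real.log (y / x)) := by
          apply mul_le_mul_of_nonneg_right (sum_wt m T hT) (by positivity)
      _ = _ := by ring
  · apply Finset.sum_le_sum
    intro ν _
    rw [box_partition m T W hW]
    apply Finset.sum_le_sum
    intro τ _
    apply le_of_eq
    unfold AL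
    apply Finset.sum_congr ?_ ?_
    · ext t
      simp only [Finset.mem_filter]
    · intro t _
      congr 1
      apply Finset.sum_congr rfl
      intro N _
      rw [coe_filter_sum]

/-- Sums over a covered finset. -/
theorem sum_le_cover {ι κ : Type*} [DecidableEq ι] (B : Finset ι) (I : Finset κ)
    (Bk : κ → Finset ι) (g : ι → ℝ) (hg : ∀ i, 0 ≤ g i) (C : κ → ℝ)
    (hcov : ∀ p ∈ B, ∃ u ∈ I, p ∈ Bk u) (hC : ∀ u ∈ I, ∑ p ∈ Bk u, g p ≤ C u) :
    ∑ p ∈ B, g p ≤ ∑ u ∈ I, C u := by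
  calc ∑ p ∈ B, g p ≤ ∑ p ∈ B, ∑ u ∈ I, (if p ∈ Bk u then g p else 0) := by
        apply Finset.sum_le_sum
        intro p hp
        obtain ⟨u, hu, hpu⟩ := hcov p hp
        have h := Finset.single_le_sum (f := fun u => if p ∈ Bk u then g p else 0)
          (fun i _ => by
            show 0 ≤ (if p ∈ Bk i then g p else 0)
            split_ifs
            · exact hg p
            · exact le_rfl) hu
        simpa [hpu] using h
    _ = ∑ u ∈ I, ∑ p ∈ B, (if p ∈ Bk u then g p else 0) := Finset.sum_comm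
    _ ≤ ∑ u ∈ I, C u := by
        apply Finset.sum_le_sum
        intro u hu
        rw [← Finset.sum_filter]
        refine le_trans (Finset.sum_le_sum_of_subset_of_nonneg ?_ (fun i _ _ => hg i)) (hC u hu)
        intro p hp
        exact (Finset.mem_filter.1 hp).2

open Classical in
/-- The final statement for the Möbius function, with the sums over natural numbers. -/
def StatementMUFPn : Prop :=
  ∀ (m r : ℕ) (a : Fin r → ℤ) (b : Fin r → Fin m → ℤ) (c : Fin r → ℤ) (ε : Fin r → ℕ)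
    (q n₀ : ℕ) (j : Fin r),
    (∀ i, 1 ≤ ε i) → Odd (ε j) → 0 < q →
    (Fin.cons 1 (Fin.cons (a j : ℚ) (fun l => (b j l : ℚ))) : Fin (m + 2) → ℚ) ∉
      Submodule.span ℚ {z | ∃ i, i ≠ j ∧ Odd (ε i) ∧
        z = (Fin.cons 1 (Fin.cons (a i : ℚ) (fun l => (b i l : ℚ))) : Fin (m + 2) → ℚ)} →
    ∀ ρ : ℝ, 0 < ρ → ∃ C : ℝ, ∀ P : ℕ, ∃ T₀ : ℕ, ∀ T, T₀ ≤ T → ∃ K : ℕ,
    ∀ x y : ℕ, 0 < x → K * x ≤ y →
      ∑ p ∈ ((Finset.Icc 1 P).filter Nat.Prime).filter (fun p : ℕ =>
        ρ * Real.log T ^ m * Real.log (y / x) <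
        ∑ t ∈ Fintype.piFinset (fun _ : Fin m => Finset.Icc 1 T),
        (∏ l, (1 : ℝ) / t l) * ∑ N ∈ Finset.Icc x y, (1 / (N : ℝ)) *
          |(∑ n ∈ (Finset.Icc 1 N).filter (fun n : ℕ => n ≡ n₀ [MOD q]),
            ∏ i, ((ArithmeticFunction.moebius
              (((n : ℤ) + (a i + ∑ l, b i l * (t l : ℤ) + c i * (p : ℤ))).toNat) : ℤ) : ℝ) ^ ε i)
                / N|),
        (1 / (p : ℝ)) ≤ C

/-- The final theorem for the Möbius function. -/
theorem mufp_clean (h1 : StatementLAMP) (h2 : StatementMUAU) (h3 : StatementIND) :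
    StatementMUFPn := by
  classical
  intro m r a b c ε q n₀ j hε hj hq hspan ρ hρ
  obtain ⟨w, hw⟩ := h2 r (ρ / 2 ^ (m + 1)) (by positivity)
  have hW : 0 < WW q w := WW_pos hq w
  set W := WW q w with hWdef
  obtain ⟨k, ⟨e⟩⟩ : ∃ k, Nonempty ({i // Odd (ε i)} ≃ Fin k) :=
    ⟨_, ⟨Fintype.equivFin _⟩⟩
  have hInd : Ind (fun i => a (e.symm i).1) (fun i => b (e.symm i).1) (e ⟨j, hj⟩) := by
    obtain ⟨D, u, v, hv1, hv2⟩ := h3 m r a b (fun i => Odd (ε i)) j hspan
    refine ⟨D, u, v, ?_, ?_⟩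
    · intro i hi
      apply hv1
      · intro h
        apply hi
        rw [← e.apply_symm_apply i]
        congr 1
        exact Subtype.ext h
      · exact (e.symm i).2
    · simpa using hv2
  have hW' : (0 : ℝ) < W := by exact_mod_cast hW
  set ρ' : ℝ := ρ / (2 * (W : ℝ) ^ (m + 1)) with hρ'
  have hρ'pos : 0 < ρ' := by positivity
  choose C hC using fun u : ℕ × (Fin m → ℕ) =>
    h1 m k (fun i => a (e.symm i).1) (fun i => b (e.symm i).1) (fun i => c (e.symm i).1)
      (e ⟨j, hj⟩) W (u.1 : ℤ) (fun l => ((u.2 l : ℕ) : ℤ)) hW hInd ρ' hρ'pos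
  set I : Finset (ℕ × (Fin m → ℕ)) := range W ×ˢ Fintype.piFinset (fun _ : Fin m => range W) with hI
  have hIcard : (I.card : ℝ) = (W : ℝ) ^ (m + 1) := by
    rw [hI, Finset.card_product, Fintype.card_piFinset]
    simp [pow_succ, mul_comm]
  refine ⟨∑ u ∈ I, C u, fun P => ?_⟩
  choose T₀ hT₀ using fun u : ℕ × (Fin m → ℕ) => hC u P
  refine ⟨max 3 (I.sup T₀), fun T hT => ?_⟩
  have hT3 : 3 ≤ T := (le_max_left _ _).trans hT
  have hTu : ∀ u ∈ I, T₀ u ≤ T := fun u hu =>
    (Finset.le_sup hu).trans ((le_max_right _ _).trans hT)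
  have hK0 : ∀ u : ℕ × (Fin m → ℕ), ∃ K : ℕ, u ∈ I → ∀ x y : ℕ, 0 < x → K * x ≤ y →
      ∑ p ∈ (primesLE P).filter (fun p : ℕ => ρ' * Real.log T ^ m * Real.log (y / x) <
        AL (fun i => a (e.symm i).1 + c (e.symm i).1 * (p : ℤ)) (fun i => b (e.symm i).1) W
          (u.1 : ℤ) (fun l => ((u.2 l : ℕ) : ℤ)) T x y), (1 / (p : ℝ)) ≤ C u := by
    intro u
    by_cases hu : u ∈ I
    · obtain ⟨K, hK⟩ := hT₀ u T (hTu u hu)
      refine ⟨K, fun _ x y hx hxy => ?_⟩
      have h := hK x y hx hxy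
      rw [coe_filter_sum] at h
      simp only [Int.cast_natCast] at h
      exact h
    · exact ⟨0, fun h => absurd h hu⟩
  choose K hK using hK0
  choose K2 hK2 using fun p : ℕ => hw m (fun i => a i + c i * (p : ℤ)) b ε q n₀ hε hq T
  refine ⟨max 1 (max (I.sup K) ((primesLE P).sup K2)), fun x y hx hKxy => ?_⟩
  have hxy1 : x ≤ y := by
    have := (Nat.mul_le_mul_right x (le_max_left 1 (max (I.sup K) ((primesLE P).sup K2)))).trans hKxy
    simpa using this
  have hlogxy : 0 ≤ Real.log ((y : ℝ) / x) := by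
    apply Real.log_nonneg
    rw [le_div_iff₀ (by exact_mod_cast hx)]
    rw [one_mul]
    exact_mod_cast hxy1
  have hlogT : 0 ≤ Real.log (T : ℝ) := by
    apply Real.log_nonneg
    have : (3 : ℝ) ≤ T := by exact_mod_cast hT3
    linarith
  apply sum_le_cover _ I (fun u => (primesLE P).filter (fun p : ℕ =>
      ρ' * Real.log T ^ m * Real.log (y / x) <
        AL (fun i => a (e.symm i).1 + c (e.symm i).1 * (p : ℤ)) (fun i => b (e.symm i).1) W
          (u.1 : ℤ) (fun l => ((u.2 l : ℕ) : ℤ)) T x y)) _ (fun p => by positivity)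
  · intro p hp
    rw [Finset.mem_filter] at hp
    obtain ⟨hpP, hbad⟩ := hp
    by_contra hcon
    push Not at hcon
    have hgood : ∀ u ∈ I, AL (fun i => a (e.symm i).1 + c (e.symm i).1 * (p : ℤ))
        (fun i => b (e.symm i).1) W (u.1 : ℤ) (fun l => ((u.2 l : ℕ) : ℤ)) T x y ≤
        ρ' * Real.log T ^ m * Real.log (y / x) := by
      intro u hu
      have := hcon u hu
      rw [Finset.mem_filter] at this
      by_contra h
      exact this ⟨hpP, not_le.1 h⟩
    have hK2p : K2 p * x ≤ y := by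
      refine (Nat.mul_le_mul_right x ?_).trans hKxy
      exact (Finset.le_sup (f := K2) hpP).trans ((le_max_right _ _).trans (le_max_right _ _))
    have hmain := am_le m r (fun i => a i + c i * (p : ℤ)) b ε q n₀ w hq T x y
      (ρ / 2 ^ (m + 1)) (by positivity) hT3 hlogxy k e (hK2 p x y hx hK2p)
    have hAM : AM (fun i => a i + c i * (p : ℤ)) b ε q n₀ T x y =
        ∑ t ∈ Fintype.piFinset (fun _ : Fin m => Finset.Icc 1 T),
        (∏ l, (1 : ℝ) / t l) * ∑ N ∈ Finset.Icc x y, (1 / (N : ℝ)) *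
          |(∑ n ∈ (Finset.Icc 1 N).filter (fun n => n ≡ n₀ [MOD q]),
            ∏ i, ((ArithmeticFunction.moebius
              (((n : ℤ) + (a i + ∑ l, b i l * t l + c i * p)).toNat) : ℤ) : ℝ) ^ ε i) / N| := by
      unfold AM H91.LF.box wt
      apply Finset.sum_congr rfl
      intro t _
      congr 1
      apply Finset.sum_congr rfl
      intro N _
      congr 3
      apply Finset.sum_congr rfl
      intro n _
      apply Finset.prod_congr rfl
      intro i _
      have : (n : ℤ) + (a i + c i * (p : ℤ) + ∑ l, b i l * t l) =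
        (n : ℤ) + (a i + ∑ l, b i l * t l + c i * p) := by ring
      rw [this]
    rw [← hAM] at hbad
    have hsum : ∑ ν ∈ range W, ∑ τ ∈ Fintype.piFinset (fun _ : Fin m => range W),
        AL (fun i => a (e.symm i).1 + c (e.symm i).1 * (p : ℤ)) (fun i => b (e.symm i).1) W (ν : ℤ)
          (fun l => ((τ l : ℕ) : ℤ)) T x y ≤
        (W : ℝ) ^ (m + 1) * (ρ' * Real.log T ^ m * Real.log (y / x)) := by
      rw [← Finset.sum_product', ← hI, ← hIcard, ← nsmul_eq_mul]
      apply Finset.sum_le_card_nsmul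
      intro u hu
      exact hgood u hu
    have e1 : (W : ℝ) ^ (m + 1) * (ρ' * Real.log T ^ m * Real.log (y / x)) =
        ρ / 2 * (Real.log T ^ m * Real.log (y / x)) := by
      rw [hρ']
      field_simp
    have e2 : ρ / 2 ^ (m + 1) * (2 * Real.log T) ^ m * Real.log (y / x) =
        ρ / 2 * (Real.log T ^ m * Real.log (y / x)) := by
      rw [mul_pow, pow_succ]
      field_simp
    have : AM (fun i => a i + c i * (p : ℤ)) b ε q n₀ T x y ≤
        ρ * Real.log T ^ m * Real.log (y / x) := by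
      calc _ ≤ _ := hmain
        _ ≤ ρ / 2 * (Real.log T ^ m * Real.log (y / x)) +
            ρ / 2 * (Real.log T ^ m * Real.log (y / x)) := by
          rw [e2]
          have := hsum
          rw [e1] at this
          gcongr
        _ = _ := by ring
    linarith
  · intro u hu
    apply hK u hu x y hx
    refine (Nat.mul_le_mul_right x ?_).trans hKxy
    exact (Finset.le_sup (f := K) hu).trans ((le_max_left _ _).trans (le_max_right _ _))

/-- The final theorem for the Möbius function, in the form of the list of modules. -/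
theorem mufp_main (h1 : StatementLAMP) (h2 : StatementMUAU) (h3 : StatementIND) :
    StatementMUFP := by
  intro m r a b c ε q n₀ j hε hj hq hspan ρ hρ
  obtain ⟨C, hC⟩ := mufp_clean h1 h2 h3 m r a b c ε q n₀ j hε hj hq hspan ρ hρ
  refine ⟨C, fun P => ?_⟩
  obtain ⟨T₀, hT₀⟩ := hC P
  refine ⟨T₀, fun T hT => ?_⟩
  obtain ⟨K, hK⟩ := hT₀ T hT
  refine ⟨K, fun x y hx hxy => ?_⟩
  rw [coe_filter_sum]
  simp only [Int.cast_natCast]
  exact hK x y hx hxy

end Pool.Agent.H32.LF
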