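import Pool.Agent.H28.LF.T1

/-!
Project LF, row CND: conditioning on an invariant set.
-/

set_option autoImplicit false

open MeasureTheory ProbabilityTheory Filter Topology Finset
open scoped Nat ENNReal

namespace Pool.Agent.H32.LF

open Pool.Agent.H28.LF
open Pool.Agent.H67.AG (Inv Fac)

theorem pf_CND : T_CND := by
  intro Ω X mΩ mX P _ T A hT hA hpos
  rw [MeasurableSpace.measurableSet_invariants] at hA
  obtain ⟨hAm, hAi⟩ := hA
  rw [Function.iterate_one] at hAi
  have hne : P A ≠ 0 := by
    intro h0
    rw [measureReal_def, h0] at hpos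
    simp at hpos
  have hp : IsProbabilityMeasure (P[|A]) := cond_isProbabilityMeasure hne
  have hTA : MeasurePreserving T (P[|A]) (P[|A]) := by
    refine ⟨T.measurable, ?_⟩
    unfold ProbabilityTheory.cond
    rw [Measure.map_smul]
    have h4 := (hT.restrict_preimage hAm).map_eq
    rw [hAi] at h4
    rw [h4]
  refine ⟨hp, hTA, ?_, ?_⟩
  · rintro f hf ⟨C, hC⟩
    have hm : Inv T 1 ≤ mΩ := MeasurableSpace.invariants_le _
    have hfi : ∀ (ν : Measure Ω) [IsFiniteMeasure ν], Integrable f ν := fun ν _ =>
      Integrable.of_bound hf.aestronglyMeasurable C (ae_of_all _ fun ω => by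
        rw [Real.norm_eq_abs]; exact hC ω)
    have hres : ∀ s, MeasurableSet s → ∀ h : Ω → ℝ,
        ∫ x in s, h x ∂(P[|A]) = (P A)⁻¹.toReal * ∫ x in s ∩ A, h x ∂P := by
      intro s hs h
      unfold ProbabilityTheory.cond
      rw [Measure.restrict_smul, Measure.restrict_restrict hs, integral_smul_measure, smul_eq_mul]
    symm
    apply ae_eq_condExp_of_forall_setIntegral_eq hm (hfi _)
    · intro s _ _
      apply Integrable.integrableOn
      unfold ProbabilityTheory.cond
      exact (integrable_condExp.restrict).smul_measure (ENNReal.inv_ne_top.2 hne)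
    · intro s hs _
      rw [hres s (hm _ hs), hres s (hm _ hs)]
      congr 1
      apply setIntegral_condExp hm (hfi _)
      apply MeasurableSet.inter hs
      rw [MeasurableSpace.measurableSet_invariants]
      refine ⟨hAm, ?_⟩
      rw [Function.iterate_one]
      exact hAi
    · exact stronglyMeasurable_condExp.aestronglyMeasurable
  · intro μ _ T' g hE hF
    have hgm := hF.1.measurable
    refine ⟨⟨hgm, ?_⟩, hF.2⟩
    have h1 : IsProbabilityMeasure ((P[|A]).map g) :=
      Measure.isProbabilityMeasure_map hgm.aemeasurable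
    have h2 : MeasurePreserving T' ((P[|A]).map g) ((P[|A]).map g) := by
      refine ⟨T'.measurable, ?_⟩
      rw [Measure.map_map T'.measurable hgm]
      have h5 : (T' : X → X) ∘ g = g ∘ (T : Ω → Ω) := by
        funext ω
        exact (hF.2 ω).symm
      rw [h5, ← Measure.map_map hgm T.measurable, hTA.map_eq]
    have h3 : (P[|A]).map g ≪ μ := by
      rw [← hF.1.map_eq]
      exact cond_absolutelyContinuous.map hgm
    exact hE.eq_of_absolutelyContinuous h2 h3

end Pool.Agent.H32.LF
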