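import Pool.Agent.H28.LF.T1

/-!
Project LF, row EQB: basic facts on the set of the pairs with the same symbols.
-/

set_option autoImplicit false

open MeasureTheory ProbabilityTheory Filter Topology Finset
open scoped Nat ENNReal

namespace Pool.Agent.H32.LF

open Pool.Agent.H28.LF
open Pool.Agent.H67.AG (Inv TT)

lemma TT_it {X : Type} [MeasurableSpace X] (T : X ≃ᵐ X) (n : ℕ) (p : X × X) :
    (TT T)^[n] p = (T^[n] p.1, T^[n] p.2) := by
  induction n generalizing p with
  | zero => rfl
  | succ n ih =>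
    rw [Function.iterate_succ_apply, ih, Function.iterate_succ_apply, Function.iterate_succ_apply]
    rfl

lemma TTs_it {X : Type} [MeasurableSpace X] (T : X ≃ᵐ X) (n : ℕ) (p : X × X) :
    (TT T).symm^[n] p = (T.symm^[n] p.1, T.symm^[n] p.2) := by
  induction n generalizing p with
  | zero => rfl
  | succ n ih =>
    rw [Function.iterate_succ_apply, ih, Function.iterate_succ_apply, Function.iterate_succ_apply]
    rfl

lemma it_sym {X : Type} [MeasurableSpace X] (T : X ≃ᵐ X) (n : ℕ) (x : X) :
    T^[n] (T.symm^[n] x) = x := by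
  have h : Function.LeftInverse (T : X → X) T.symm := fun y => T.apply_symm_apply y
  exact (h.iterate n) x

theorem pf_EQB : T_EQB := by
  intro c
  have hTm : ∀ n : ℕ, Measurable (c.T^[n]) := fun n => c.T.measurable.iterate n
  have hTsm : ∀ n : ℕ, Measurable (c.T.symm^[n]) := fun n => c.T.symm.measurable.iterate n
  have hm1 : ∀ n : ℕ, MeasurableSet {p : c.X × c.X | c.a (c.T^[n] p.1) = c.a (c.T^[n] p.2)} :=
    fun n => measurableSet_eq_fun (c.am.comp ((hTm n).comp measurable_fst))
      (c.am.comp ((hTm n).comp measurable_snd))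
  have hm2 : ∀ n : ℕ, MeasurableSet
      {p : c.X × c.X | c.a (c.T.symm^[n] p.1) = c.a (c.T.symm^[n] p.2)} :=
    fun n => measurableSet_eq_fun (c.am.comp ((hTsm n).comp measurable_fst))
      (c.am.comp ((hTsm n).comp measurable_snd))
  have hE : MeasurableSet c.Eqv := by
    have : c.Eqv = ⋂ n : ℕ, ({p : c.X × c.X | c.a (c.T^[n] p.1) = c.a (c.T^[n] p.2)} ∩
        {p : c.X × c.X | c.a (c.T.symm^[n] p.1) = c.a (c.T.symm^[n] p.2)}) := by
      ext p
      simp only [Ux.Eqv, Set.mem_setOf_eq, Set.mem_iInter, Set.mem_inter_iff]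
    rw [this]
    exact MeasurableSet.iInter fun n => (hm1 n).inter (hm2 n)
  have hinv : (TT c.T) ⁻¹' c.Eqv = c.Eqv := by
    ext p
    have e1 : ∀ (n : ℕ) (x : c.X), c.T^[n] (c.T x) = c.T^[n + 1] x := fun n x =>
      (Function.iterate_succ_apply _ _ _).symm
    have e2 : ∀ (n : ℕ) (x : c.X), c.T.symm^[n + 1] (c.T x) = c.T.symm^[n] x := fun n x => by
      rw [Function.iterate_succ_apply, MeasurableEquiv.symm_apply_apply]
    have e0 : (TT c.T) p = (c.T p.1, c.T p.2) := rfl
    simp only [Set.mem_preimage, Ux.Eqv, Set.mem_setOf_eq, e0]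
    constructor
    · intro h n
      refine ⟨?_, ?_⟩
      · rcases n with _ | n
        · have := (h 1).2
          rw [e2 0, e2 0] at this
          exact this
        · have := (h n).1
          rw [e1, e1] at this
          exact this
      · have := (h (n + 1)).2
        rw [e2, e2] at this
        exact this
    · intro h n
      refine ⟨?_, ?_⟩
      · rw [e1, e1]
        exact (h (n + 1)).1
      · rcases n with _ | n
        · exact (h 1).1
        · rw [e2, e2]
          exact (h n).2
  refine ⟨hE, hinv, ?_, ?_⟩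
  · intro x y z
    exact ⟨fun n => ⟨rfl, rfl⟩, fun h n => ⟨((h n).1).symm, ((h n).2).symm⟩,
      fun h h' n => ⟨((h n).1).trans (h' n).1, ((h n).2).trans (h' n).2⟩⟩
  intro Q _ hQ
  have hQn : ∀ n : ℕ, MeasurePreserving ((TT c.T)^[n]) Q Q := fun n => hQ.iterate n
  have hQs : MeasurePreserving (TT c.T).symm Q Q := MeasurePreserving.symm (TT c.T) hQ
  have hQsn : ∀ n : ℕ, MeasurePreserving ((TT c.T).symm^[n]) Q Q := fun n => hQs.iterate n
  set F : Set (c.X × c.X) := {p | ∀ n : ℕ, c.a (c.T^[n] p.1) = c.a (c.T^[n] p.2)} with hF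
  have hFm : MeasurableSet F := by
    have : F = ⋂ n : ℕ, {p : c.X × c.X | c.a (c.T^[n] p.1) = c.a (c.T^[n] p.2)} := by
      ext p
      simp only [hF, Set.mem_setOf_eq, Set.mem_iInter]
    rw [this]
    exact MeasurableSet.iInter fun n => hm1 n
  have hFE : ∀ᵐ p ∂Q, p ∈ F → p ∈ c.Eqv := by
    have h1 : ∀ n : ℕ, ∀ᵐ p ∂Q, p ∈ F → (TT c.T).symm^[n] p ∈ F := by
      intro n
      have hsub : ((TT c.T).symm^[n]) ⁻¹' F ⊆ F := by
        intro p hp k
        have h2 := hp (k + n)
        rw [TTs_it] at h2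
        simp only at h2
        rw [Function.iterate_add_apply, Function.iterate_add_apply, it_sym, it_sym] at h2
        exact h2
      have hSm : MeasurableSet (((TT c.T).symm^[n]) ⁻¹' F) := (hQsn n).measurable hFm
      have h3 : Q (F \ ((TT c.T).symm^[n]) ⁻¹' F) = 0 := by
        rw [measure_diff hsub hSm.nullMeasurableSet (measure_ne_top _ _),
          (hQsn n).measure_preimage hFm.nullMeasurableSet, tsub_self]
      have h4 : ∀ᵐ p ∂Q, p ∉ F \ ((TT c.T).symm^[n]) ⁻¹' F := measure_eq_zero_iff_ae_notMem.1 h3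
      filter_upwards [h4] with p hp hpF
      by_contra hc
      exact hp ⟨hpF, hc⟩
    have h5 := ae_all_iff.2 h1
    filter_upwards [h5] with p hp hpF n
    refine ⟨hpF n, ?_⟩
    have h6 := hp n hpF 0
    rw [TTs_it] at h6
    exact h6
  refine ⟨hFE, ?_⟩
  -- the conditional mismatch
  set d : c.X × c.X → ℝ := dm (fun p => c.a p.1) (fun p => c.a p.2) with hd
  have hdm : Measurable d := by
    have : d = ({p : c.X × c.X | c.a p.1 = c.a p.2}ᶜ).indicator fun _ => (1 : ℝ) := by
      funext p
      simp only [hd, dm, Set.indicator, Set.mem_compl_iff, Set.mem_setOf_eq]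
      split_ifs <;> simp_all
    rw [this]
    exact measurable_const.indicator (hm1 0).compl
  have hd01 : ∀ p, 0 ≤ d p ∧ d p ≤ 1 := by
    intro p
    simp only [hd, dm]
    split_ifs <;> norm_num
  have hdi : Integrable d Q := Integrable.of_bound hdm.aestronglyMeasurable 1
    (ae_of_all _ fun p => by rw [Real.norm_eq_abs, abs_of_nonneg (hd01 p).1]; exact (hd01 p).2)
  have hm : Inv (TT c.T) 1 ≤ (inferInstance : MeasurableSpace (c.X × c.X)) :=
    MeasurableSpace.invariants_le _
  set mb : c.X × c.X → ℝ := Q[d | Inv (TT c.T) 1] with hmb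
  have hmbm : StronglyMeasurable[Inv (TT c.T) 1] mb := stronglyMeasurable_condExp
  have hmb0 : 0 ≤ᵐ[Q] mb := condExp_nonneg (ae_of_all _ fun p => (hd01 p).1)
  set A : Set (c.X × c.X) := {p | mb p = 0} with hA
  have hAI : MeasurableSet[Inv (TT c.T) 1] A := by
    have := hmbm.measurable (measurableSet_singleton (0 : ℝ))
    exact this
  have hAm : MeasurableSet A := hm _ hAI
  have hAinv : (TT c.T) ⁻¹' A = A := by
    have := (MeasurableSpace.measurableSet_invariants.1 hAI).2
    rwa [Function.iterate_one] at this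
  have hAinvn : ∀ n : ℕ, ((TT c.T)^[n]) ⁻¹' A = A := by
    intro n
    induction n with
    | zero => rfl
    | succ n ih =>
      rw [Function.iterate_succ, Set.preimage_comp, ih, hAinv]
  have hEI : MeasurableSet[Inv (TT c.T) 1] c.Eqv := by
    rw [MeasurableSpace.measurableSet_invariants]
    refine ⟨hE, ?_⟩
    rw [Function.iterate_one]
    exact hinv
  -- on A
  have hz : ∫ p in A, d p ∂Q = 0 := by
    rw [← setIntegral_condExp hm hdi hAI]
    rw [setIntegral_congr_fun (g := fun _ => (0 : ℝ)) hAm]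
    · simp
    · intro p hp
      exact hp
  have hz2 : ∀ᵐ p ∂Q, p ∈ A → d p = 0 := by
    have h7 := (setIntegral_eq_zero_iff_of_nonneg_ae (ae_of_all _ fun p => (hd01 p).1)
      hdi.integrableOn).1 hz
    exact (ae_restrict_iff' hAm).1 h7
  have hz3 : ∀ n : ℕ, ∀ᵐ p ∂Q, p ∈ A → c.a (c.T^[n] p.1) = c.a (c.T^[n] p.2) := by
    intro n
    have h8 := (hQn n).quasiMeasurePreserving.ae hz2
    filter_upwards [h8] with p hp hpA
    have h9 : (TT c.T)^[n] p ∈ A := by
      have : p ∈ ((TT c.T)^[n]) ⁻¹' A := by rw [hAinvn]; exact hpA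
      exact this
    have h10 := hp h9
    rw [TT_it] at h10
    simp only [hd, dm] at h10
    by_contra hc
    rw [if_neg hc] at h10
    exact one_ne_zero h10
  have hz4 := ae_all_iff.2 hz3
  -- on Eqv
  have hy : ∫ p in c.Eqv, mb p ∂Q = 0 := by
    rw [hmb, setIntegral_condExp hm hdi hEI]
    rw [setIntegral_congr_fun (g := fun _ => (0 : ℝ)) hE]
    · simp
    · intro p hp
      have h11 : c.a p.1 = c.a p.2 := (hp 0).1
      simp only [hd, dm, h11, if_true]
  have hy2 : ∀ᵐ p ∂Q, p ∈ c.Eqv → mb p = 0 := by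
    have h12 : ∀ᵐ p ∂(Q.restrict c.Eqv), 0 ≤ mb p := ae_restrict_of_ae hmb0
    have h13 := (setIntegral_eq_zero_iff_of_nonneg_ae h12
      (integrable_condExp.integrableOn)).1 hy
    exact (ae_restrict_iff' hE).1 h13
  filter_upwards [hz4, hy2, hFE] with p h1 h2 h3
  constructor
  · intro h
    exact h3 fun n => h1 n h
  · exact h2

end Pool.Agent.H32.LF
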