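import Pool.Agent.H28.LF.T1
import Pool.Agent.H85.LF.LIM

/-!
Project LF, row EXI: exponential sums over primes, irrational frequency.
-/

set_option autoImplicit false

open MeasureTheory ProbabilityTheory Filter Topology Finset

namespace Pool.Agent.H32.LF

open Pool.Agent.H28.LF
open Pool.Agent.H24.AG (T_VPR T_VDY)
open Pool.Agent.H67.AG (avgP)

theorem pf_EXI (hV : T_VPR) (hD : T_VDY) : T_EXI := by
  intro x hx
  have h := Pool.Agent.H85.LF.lim_irr hV hD hx (d := 1) one_pos
  have e : (fun m => avgP 2 m fun p => Pool.Agent.H85.LF.cs x (p * 1)) =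
      fun m => avgP 2 m fun p => Real.cos (2 * Real.pi * (x * p)) := by
    funext m
    simp only [Pool.Agent.H85.LF.cs, mul_one]
  rwa [e] at h

end Pool.Agent.H32.LF
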